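import Pool.Agent.Helper69.SW.St

/-! # Project SW, module Jen: convex combinations of supersolutions -/

set_option autoImplicit false

open scoped BigOperators ENNReal Topology
open Pool.LE Pool.NL Pool.CL Pool.CB Filter

namespace Pool.SW

namespace JenM

theorem conv {s t a b : ℝ} (hs : 0 ≤ s) (ht : 0 ≤ t) (hst : s + t = 1) :
    (s * a + t * b) ^ 2 ≤ s * a ^ 2 + t * b ^ 2 := by
  have h : s * a ^ 2 + t * b ^ 2 - (s * a + t * b) ^ 2 = s * t * (a - b) ^ 2 := by
    have ht' : t = 1 - s := by linarith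
    rw [ht']
    ring
  have h2 : 0 ≤ s * t * (a - b) ^ 2 := by positivity
  linarith

theorem AL_lin {d : ℕ} (W W' : Zd d → ℝ) (q q' : ℝ) (x : Zd d) :
    AL (fun x => W x / q + W' x / q') x = 1 / q * AL W x + 1 / q' * AL W' x := by
  unfold AL
  have h : ∑ b ∈ nb x, (W b / q + W' b / q') =
      1 / q * ∑ b ∈ nb x, W b + 1 / q' * ∑ b ∈ nb x, W' b := by
    rw [Finset.sum_add_distrib, Finset.mul_sum, Finset.mul_sum]
    congr 1 <;> exact Finset.sum_congr rfl fun b _ => by ring
  rw [h]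
  ring

end JenM

theorem hJen : StJen := by
  intro d n L c V θ q q' f g W W' hc hV hq hq' hqq hW hW'
  refine ⟨fun x => ?_, fun x hx => ?_⟩
  · have h1 := hW.1 x
    have h2 := hW'.1 x
    positivity
  · have h1 := hW.2 x hx
    have h2 := hW'.2 x hx
    rw [JenM.AL_lin]
    have hs : 0 < 1 / q := by positivity
    have ht : 0 < 1 / q' := by positivity
    have h3 := mul_le_mul_of_nonneg_left h1 hs.le
    have h4 := mul_le_mul_of_nonneg_left h2 ht.le
    refine le_trans ?_ (add_le_add h3 h4)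
    have hconv := JenM.conv (a := W x) (b := W' x) hs.le ht.le hqq
    have hcn : 0 ≤ c / (n : ℝ) ^ 2 := by positivity
    have e1 : 1 / q * (c / (n : ℝ) ^ 2 * (q * θ * f x + V / 2 * W x ^ 2)) +
        1 / q' * (c / (n : ℝ) ^ 2 * (q' * θ * g x + V / 2 * W' x ^ 2)) =
        c / (n : ℝ) ^ 2 * (θ * (f x + g x) +
          V / 2 * (1 / q * W x ^ 2 + 1 / q' * W' x ^ 2)) := by
      have a1 : 1 / q * q = 1 := one_div_mul_cancel hq.ne'
      have a2 : 1 / q' * q' = 1 := one_div_mul_cancel hq'.ne'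
      linear_combination (c / (n : ℝ) ^ 2 * θ * f x) * a1 + (c / (n : ℝ) ^ 2 * θ * g x) * a2
    rw [e1]
    refine mul_le_mul_of_nonneg_left ?_ hcn
    have e2 : W x / q + W' x / q' = 1 / q * W x + 1 / q' * W' x := by ring
    beta_reduce
    rw [e2]
    have hV2 : 0 ≤ V / 2 := by positivity
    exact add_le_add le_rfl (mul_le_mul_of_nonneg_left hconv hV2)

end Pool.SW
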